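import Mathlib
import Pool.Agent.H60.Mirror

open Pool.Agent.H60.Mirror in
/-- Fano data satisfying the standing assumptions for which `φ_{ij} / φ₀` has a negative
coefficient. -/
theorem Pool.Agent.Results.MP_3570a5_nt.Counter.result :
    ∃ (d p : ℕ) (q : Fin p → ℕ) (v : I q → Fin d → ℤ), 1 ≤ d ∧ 1 ≤ p ∧ (∀ i, 1 ≤ q i) ∧
      (0 : Fin d → ℝ) ∈ interior (Delta v) ∧ Submodule.span ℤ (Set.range v) = ⊤ ∧
      (∀ x : Fin d → ℤ, (fun c => (x c : ℝ)) ∈ interior (Delta v) → x = 0) ∧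
      ∃ (x : I q) (k : I q →₀ ℕ), V v k = 0 ∧
        MvPowerSeries.coeff k (phi v x * (phi0 v)⁻¹) < 0 :=
  ⟨3, 2, q0, v0, by norm_num, by norm_num, fun _ => by norm_num, zero_mem, span_top, fano,
    ⟨0, 0⟩, Finsupp.equivFunOnFinite.symm k0, V_k0, by rw [coeff_neg]; norm_num⟩
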